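import Pool.Agent.H78.STN.Stmts2

namespace Pool.STN

open Pool.Agent.H40.COL

theorem ISF_thm : ISFStmt := by
  refine ⟨fun n hn => ?_, fun n hn => ?_, fun n hn => ?_⟩
  · have h : 3 * n % 3 = 0 := by omega
    unfold F
    rw [if_pos h]
    omega
  · have h : (3 * n - 1) % 3 = 2 := by omega
    unfold F
    rw [if_neg (by omega), if_pos h]
    omega
  · have h : (3 * n - 2) % 3 = 1 := by omega
    unfold F
    rw [if_neg (by omega), if_neg (by omega)]
    omega

end Pool.STN
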